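import Pool.Agent.R467.DR.Defs
import Pool.Agent.R467.DR.Asm
import Pool.Agent.R467.DR.Ex
import Pool.Agent.R467.DRF.UB1
import Pool.Agent.R467.DRF.UB2
import Pool.Agent.R467.DRF.CIRC
import Pool.Agent.R467.DRF.REG
import Pool.Agent.R467.DRF.CONN
import Pool.Agent.R467.DRF.DOM
import Pool.Agent.R467.DRF.REVD
import Pool.Agent.R467.DRF.UNION
import Pool.Agent.R467.DRF.PROB
import Pool.Agent.R467.DRF.PAR

/-! # MP_9a58dc_co: `ρ_r = (1 + o(1)) log r`

`ratios r` is the set of all `γ(D⁻)/γ(D)`, `D` a finite nonempty `r`-regular strongly connected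
digraph (no loops, no parallel arcs), and `rho r` is its supremum (see `Pool.Agent.R467.DR.Defs`). -/

open Pool.Agent.R467.DR

theorem Pool.Agent.Results.MP_9a58dc_co.RhoLog.result :
    (∀ r : ℕ, 1 ≤ r → BddAbove (ratios r)) ∧
      Filter.Tendsto (fun r : ℕ => rho r / Real.log r) Filter.atTop (nhds 1) :=
  fin' ub1 ub2 (ex' ub1 circ reg conn dom revd union prob par)
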